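import Pool.Agent.Helper43.GD.St

/-! Module B2 of project GD (MP_b3ce06_al). -/

set_option autoImplicit false

namespace Pool.Agent.Helper28.GD

open Pool.Agent.Helper43.GD

theorem hB2 (hL13 : StL13) (hGNS : StGNS) : StB2 := by
  intro L A _ _ Q M x hCB y hy m hm
  obtain ⟨hR, hx, hnt, hinv⟩ := hCB
  obtain ⟨-, -, -, hi2, hGi⟩ := hGNS L M x hR
  have hiU : x ^ (M / 2) ∈ Q.U := Q.U.pow_mem hx _
  generalize x ^ (M / 2) = i at hi2 hGi hiU
  -- part (a): an even power of `y` is `-1`
  have key : ∀ y ∈ Q.U, ∀ k : ℕ, (y : L) ^ (2 * k) = -1 → Q.In (1 - (y : L)) := by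
    intro y hy k hk
    apply hL13 L A Q M x hR hx y hy (2 * k) hk
    have hk' : ((y : L) ^ k) ^ 2 = -1 := by rw [← pow_mul, mul_comm k 2, hk]
    have hz : y ^ k * i = 1 ∨ y ^ k * i = -1 := by
      apply hinv _ (Q.U.mul_mem (Q.U.pow_mem hy _) hiU)
      rw [Units.val_mul, Units.val_pow_eq_pow_val, mul_pow, hk', hi2]
      ring
    intro N h1 hN
    have hst : ∀ j : ℕ, ∀ a ∈ N, (y : L) ^ j * a ∈ N := by
      intro j
      induction j with
      | zero => intro a ha; simpa using ha
      | succ j ih =>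
        intro a ha
        rw [pow_succ', mul_assoc]
        exact hN _ (ih a ha)
    apply hGi N h1
    intro a ha
    rcases hz with h | h
    · have h' : (y : L) ^ k * (i : L) = 1 := by
        have := congrArg (fun u : Lˣ => (u : L)) h
        simpa using this
      have e : (i : L) * a = -((y : L) ^ k * a) := by
        linear_combination (-a * (y : L) ^ k) * h' + (i : L) * a * hk'
      rw [e]
      exact N.neg_mem (hst k a ha)
    · have h' : (y : L) ^ k * (i : L) = -1 := by
        have := congrArg (fun u : Lˣ => (u : L)) h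
        simpa using this
      have e : (i : L) * a = (y : L) ^ k * a := by
        linear_combination (-a * (y : L) ^ k) * h' + (i : L) * a * hk'
      rw [e]
      exact hst k a ha
  rcases Nat.even_or_odd m with he | ho
  · obtain ⟨k, hk⟩ := he
    exact key y hy k (by rw [two_mul, ← hk]; exact hm)
  · obtain ⟨k, hk⟩ := ho
    -- `z = -y`, `z^m = 1`, `v = z^(k+1)`, `v² = z`
    have hz : (-(y : L)) ^ m = 1 := by
      rw [neg_pow, hm, hk, pow_succ, pow_mul]; simp
    have hv2 : ((-(y : L)) ^ (k + 1)) ^ 2 = -(y : L) := by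
      rw [← pow_mul]
      have : (k + 1) * 2 = m + 1 := by omega
      rw [this, pow_succ, hz, one_mul]
    have hvm : ((-(y : L)) ^ (k + 1)) ^ (2 * m) = 1 := by
      rw [← pow_mul, show (k + 1) * (2 * m) = m * ((k + 1) * 2) by ring, pow_mul, hz, one_pow]
    have hvU : (-1 * y) ^ (k + 1) ∈ Q.U := Q.U.pow_mem (Q.U.mul_mem Q.neg hy) _
    have hvv : (((-1 * y) ^ (k + 1) : Lˣ) : L) = (-(y : L)) ^ (k + 1) := by
      push_cast; ring
    have him : (i : L) ^ (2 * m) = -1 := by
      rw [pow_mul, hi2, hk, pow_succ, pow_mul]; simp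
    have h1 := key (i * (-1 * y) ^ (k + 1)) (Q.U.mul_mem hiU hvU) m (by
      rw [Units.val_mul, hvv, mul_pow, hvm, him, mul_one])
    have h2 := key (-1 * (i * (-1 * y) ^ (k + 1))) (Q.U.mul_mem Q.neg (Q.U.mul_mem hiU hvU)) m (by
      rw [Units.val_mul, Units.val_mul, hvv, mul_pow, mul_pow, hvm, him, mul_one, Units.val_neg,
        Units.val_one, pow_mul]
      simp)
    obtain ⟨u1, hu1, e1⟩ := h1
    obtain ⟨u2, hu2, e2⟩ := h2
    refine ⟨u1 * u2, Q.U.mul_mem hu1 hu2, ?_⟩
    rw [Units.val_mul, e1, e2, Units.val_mul, Units.val_mul, Units.val_mul, hvv, Units.val_neg,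
      Units.val_one]
    linear_combination (-((-(y : L)) ^ (k + 1)) ^ 2) * hi2 + hv2

end Pool.Agent.Helper28.GD
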